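import Pool.Agent.Helper67.DO.StmtsW

/-!
# Module W1b: rectangle theorem for a window
-/

set_option autoImplicit false

namespace Pool.Agent.Helper67.DO

open scoped BigOperators Real
open MeasureTheory

theorem st_W1b : ST_W1b := by
  intro N r σ l f hr hσ hf
  have hle : ((l : ℝ) / N - r) ≤ ((l : ℝ) / N + r) := by linarith
  have hle2 : -σ ≤ σ := by linarith
  have hmem : ∀ x y : ℝ, x ∈ Set.Icc ((l : ℝ) / N - r) ((l : ℝ) / N + r) → y ∈ Set.Icc (-σ) σ →
      ((x : ℂ) + (y : ℂ) * Complex.I) ∈ {z : ℂ | |z.re - l / N| ≤ r ∧ |z.im| ≤ σ} := by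
    intro x y hx hy
    refine ⟨?_, ?_⟩
    · simp only [Complex.add_re, Complex.ofReal_re, Complex.mul_re, Complex.I_re, mul_zero,
        Complex.ofReal_im, Complex.I_im, mul_one, sub_self, add_zero]
      rw [abs_le]
      constructor
      · linarith [hx.1]
      · linarith [hx.2]
    · simp only [Complex.add_im, Complex.ofReal_im, Complex.mul_im, Complex.ofReal_re,
        Complex.I_im, mul_one, Complex.I_re, mul_zero, add_zero, zero_add]
      rw [abs_le]
      exact hy
  have h1 := Complex.integral_boundary_rect_eq_zero_of_differentiableOn f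
    ⟨(l : ℝ) / N - r, -σ⟩ ⟨(l : ℝ) / N + r, σ⟩ (by
      apply hf.mono
      intro z hz
      rw [Complex.mem_reProdIm, Set.uIcc_of_le hle, Set.uIcc_of_le hle2] at hz
      have := hmem z.re z.im hz.1 hz.2
      rwa [Complex.re_add_im] at this)
  have hint : ∀ y : ℝ, y ∈ Set.Icc (-σ) σ → IntervalIntegrable
      (fun x : ℝ => f ((x : ℂ) + (y : ℂ) * Complex.I)) volume
      ((l : ℝ) / N - r) ((l : ℝ) / N + r) := by
    intro y hy
    apply ContinuousOn.intervalIntegrable
    rw [Set.uIcc_of_le hle]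
    refine hf.continuousOn.comp (f := fun x : ℝ => ((x : ℂ) + (y : ℂ) * Complex.I)) ?_ ?_
    · exact (Complex.continuous_ofReal.add continuous_const).continuousOn
    · intro x hx
      exact hmem x y hx hy
  have i1 := hint (-σ) ⟨le_refl _, hle2⟩
  have i2 := hint σ ⟨hle2, le_refl _⟩
  have h2 : capI N r σ l f =
      (∫ x in ((l : ℝ) / N - r)..((l : ℝ) / N + r), f ((x : ℂ) + ((-σ : ℝ) : ℂ) * Complex.I)) -
      ∫ x in ((l : ℝ) / N - r)..((l : ℝ) / N + r), f ((x : ℂ) + (σ : ℂ) * Complex.I) := by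
    rw [← intervalIntegral.integral_sub i1 i2]
    unfold capI
    apply intervalIntegral.integral_congr
    intro x _
    simp only [Complex.ofReal_neg, neg_mul, ← sub_eq_add_neg]
  rw [h2]
  unfold verL verR
  simp only [smul_eq_mul] at h1
  linear_combination h1

end Pool.Agent.Helper67.DO
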